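import Pool.Agent.H19.OM.Stm

/-!
# PQ of the project OM: one large prime against Poisson variables
-/

set_option autoImplicit false

namespace Pool.Agent.H85.OM

open Finset MeasureTheory ProbabilityTheory Pool.Agent.H19.OM
open scoped NNReal

/-- the unit vectors, and `0` for `j ≥ k` -/
def E (k j : ℕ) : Fin k → ℕ := fun i => if (i : ℕ) = j then 1 else 0

theorem E_zero (k : ℕ) : E k k = 0 := by
  funext i
  have := i.2
  unfold E
  rw [if_neg (by omega)]
  rfl

theorem E_ge {k j : ℕ} (h : k ≤ j) : E k j = 0 := by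
  funext i
  have := i.2
  unfold E
  rw [if_neg (by omega)]
  rfl

theorem E_inj (k : ℕ) : Set.InjOn (E k) (range (k + 1) : Finset ℕ) := by
  intro j hj j' hj' h
  rw [mem_coe, mem_range] at hj hj'
  by_contra hne
  rcases Nat.lt_or_gt_of_ne hne with h1 | h1
  · have h2 := congrFun h ⟨j, by omega⟩
    unfold E at h2
    simp only at h2
    rw [if_pos trivial, if_neg (by omega)] at h2
    omega
  · have h2 := congrFun h ⟨j', by omega⟩
    unfold E at h2
    simp only at h2
    rw [if_pos trivial, if_neg (by omega)] at h2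
    omega

/-- two functionals with given masses on the unit vectors and `0` -/
theorem comb {k : ℕ} {φ : (Fin k → ℕ) → ℝ} (hφ : Bd φ) {m0 m1 m0' m1' Λ Λ' r r' : ℝ}
    (h : |Λ - (∑ j ∈ range k, m1 * φ (E k j) + m0 * φ 0)| ≤ r)
    (h' : |Λ' - (∑ j ∈ range k, m1' * φ (E k j) + m0' * φ 0)| ≤ r') :
    |Λ - Λ'| ≤ |m0 - m0'| + k * |m1 - m1'| + r + r' := by
  have h1 : |(∑ j ∈ range k, m1 * φ (E k j) + m0 * φ 0) -
      (∑ j ∈ range k, m1' * φ (E k j) + m0' * φ 0)| ≤ k * |m1 - m1'| + |m0 - m0'| := by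
    have h2 : (∑ j ∈ range k, m1 * φ (E k j) + m0 * φ 0) -
      (∑ j ∈ range k, m1' * φ (E k j) + m0' * φ 0) =
      ∑ j ∈ range k, (m1 - m1') * φ (E k j) + (m0 - m0') * φ 0 := by
      simp only [sub_mul]
      rw [sum_sub_distrib]
      ring
    rw [h2]
    refine (abs_add_le _ _).trans (add_le_add ?_ ?_)
    · calc |∑ j ∈ range k, (m1 - m1') * φ (E k j)|
          ≤ ∑ j ∈ range k, |(m1 - m1') * φ (E k j)| := abs_sum_le_sum_abs _ _
        _ ≤ ∑ _j ∈ range k, |m1 - m1'| := by
            apply sum_le_sum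
            intro j _
            rw [abs_mul]
            calc _ ≤ |m1 - m1'| * 1 := mul_le_mul_of_nonneg_left (hφ _) (abs_nonneg _)
              _ = _ := mul_one _
        _ = k * |m1 - m1'| := by rw [sum_const, card_range, nsmul_eq_mul]
    · rw [abs_mul]
      calc _ ≤ |m0 - m0'| * 1 := mul_le_mul_of_nonneg_left (hφ _) (abs_nonneg _)
        _ = _ := mul_one _
  rw [abs_le] at h h' h1 ⊢
  constructor <;> linarith [h.1, h.2, h'.1, h'.2, h1.1, h1.2]

/-- the sum over the image of the unit vectors -/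
theorem sum_E (k : ℕ) (f : (Fin k → ℕ) → ℝ) :
    ∑ z ∈ (range (k + 1)).image (E k), f z = ∑ j ∈ range k, f (E k j) + f 0 := by
  rw [sum_image (E_inj k), sum_range_succ, E_zero]

theorem decP (a : ℝ≥0) (k : ℕ) {φ : (Fin k → ℕ) → ℝ} (hφ : Bd φ) :
    |P a φ - (∑ j ∈ range k, (a * Real.exp (-(k * a))) * φ (E k j) +
      Real.exp (-(k * a)) * φ 0)| ≤ 1 - k * (a * Real.exp (-(k * a))) - Real.exp (-(k * a)) := by
  classical
  obtain ⟨μ, hμ⟩ : ∃ μ : Measure (Fin k → ℕ), μ = Measure.pi (fun _ : Fin k => poissonMeasure a) :=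
    ⟨_, rfl⟩
  have hprob : IsProbabilityMeasure μ := by
    rw [hμ]
    infer_instance
  have hmass : ∀ z : Fin k → ℕ, μ.real {z} =
      ∏ i, (Real.exp (-a) * a ^ (z i) / (z i).factorial) := by
    intro z
    rw [measureReal_def, hμ, Measure.pi_singleton, ENNReal.toReal_prod]
    apply prod_congr rfl
    intro i _
    rw [← measureReal_def, poissonMeasure_real_singleton]
  have hexp : ∀ z : Fin k → ℕ, (∀ i, z i = 0 ∨ z i = 1) →
      μ.real {z} = Real.exp (-(k * a)) * ∏ i, (a : ℝ) ^ (z i) := by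
    intro z hz
    rw [hmass]
    have h1 : ∀ i, (Real.exp (-a) * a ^ (z i) / (z i).factorial : ℝ) =
        Real.exp (-a) * (a : ℝ) ^ (z i) := by
      intro i
      rcases hz i with h | h
      · rw [h]; simp
      · rw [h]; simp
    rw [prod_congr rfl fun i _ => h1 i, prod_mul_distrib, prod_const, card_univ, Fintype.card_fin,
      ← Real.exp_nat_mul]
    congr 2
    ring
  have hm0 : μ.real {(0 : Fin k → ℕ)} = Real.exp (-(k * a)) := by
    rw [hexp 0 (fun i => Or.inl rfl)]
    simp
  have hm1 : ∀ j ∈ range k, μ.real {E k j} = a * Real.exp (-(k * a)) := by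
    intro j hj
    rw [mem_range] at hj
    rw [hexp (E k j) (fun i => by unfold E; split_ifs <;> simp)]
    have h1 : ∏ i : Fin k, (a : ℝ) ^ (E k j i) = a := by
      rw [prod_eq_single (⟨j, hj⟩ : Fin k)]
      · unfold E
        simp
      · intro i _ hi
        have h2 : (i : ℕ) ≠ j := fun h => hi (Fin.ext h)
        unfold E
        rw [if_neg h2, pow_zero]
      · intro h
        exact absurd (mem_univ _) h
    rw [h1, mul_comm]
  obtain ⟨s, hs⟩ : ∃ s : Finset (Fin k → ℕ), s = (range (k + 1)).image (E k) := ⟨_, rfl⟩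
  have hmeas : Measurable φ := Measurable.of_discrete
  have hint : Integrable φ μ := by
    refine Integrable.of_bound hmeas.aestronglyMeasurable 1 (Filter.Eventually.of_forall ?_)
    intro z
    rw [Real.norm_eq_abs]
    exact hφ z
  have hsplit := integral_add_compl (μ := μ) (s := (s : Set (Fin k → ℕ))) s.measurableSet hint
  have h1 : ∫ z in (s : Set (Fin k → ℕ)), φ z ∂μ =
      ∑ j ∈ range k, (a * Real.exp (-(k * a))) * φ (E k j) + Real.exp (-(k * a)) * φ 0 := by
    rw [setIntegral_finset s hint.integrableOn, hs, sum_E, hm0, smul_eq_mul]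
    congr 1
    apply sum_congr rfl
    intro j hj
    rw [hm1 j hj, smul_eq_mul]
  have h2 : μ.real (s : Set (Fin k → ℕ)) = k * (a * Real.exp (-(k * a))) + Real.exp (-(k * a)) := by
    rw [← sum_measureReal_singleton, hs, sum_E, hm0, sum_congr rfl hm1, sum_const, card_range,
      nsmul_eq_mul]
  have h3 : ‖∫ z in (s : Set (Fin k → ℕ))ᶜ, φ z ∂μ‖ ≤ 1 * μ.real (s : Set (Fin k → ℕ))ᶜ := by
    apply norm_setIntegral_le_of_norm_le_const (measure_lt_top _ _)
    intro z _
    rw [Real.norm_eq_abs]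
    exact hφ z
  rw [probReal_compl_eq_one_sub s.measurableSet, h2, one_mul, Real.norm_eq_abs] at h3
  have h4 : P a φ = ∫ z, φ z ∂μ := by
    unfold P
    rw [hμ]
  rw [h4, ← hsplit, h1, add_sub_cancel_left]
  linarith

/-- means over finite sets -/
theorem dec_fin {X : Type} (Ω : Finset X) {k : ℕ} (b : X → (Fin k → ℕ)) (hΩ : 0 < Ω.card)
    {φ : (Fin k → ℕ) → ℝ} (hφ : Bd φ) (c0 c1 : ℕ)
    (h0 : (Ω.filter (fun ω => b ω = 0)).card = c0)
    (h1 : ∀ j ∈ range k, (Ω.filter (fun ω => b ω = E k j)).card = c1) :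
    |(∑ ω ∈ Ω, φ (b ω)) / Ω.card - (∑ j ∈ range k, ((c1 : ℝ) / Ω.card) * φ (E k j) +
      ((c0 : ℝ) / Ω.card) * φ 0)| ≤ 1 - k * ((c1 : ℝ) / Ω.card) - (c0 : ℝ) / Ω.card := by
  classical
  have hN : (0 : ℝ) < Ω.card := by exact_mod_cast hΩ
  obtain ⟨s, hs⟩ : ∃ s : Finset (Fin k → ℕ), s = (range (k + 1)).image (E k) := ⟨_, rfl⟩
  have hin : ∀ f : (Fin k → ℕ) → ℝ, ∑ ω ∈ Ω.filter (fun ω => b ω ∈ s), f (b ω) =
      ∑ j ∈ range k, (c1 : ℝ) * f (E k j) + (c0 : ℝ) * f 0 := by
    intro f
    have h2 : ∑ ω ∈ Ω.filter (fun ω => b ω ∈ s), f (b ω) =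
        ∑ z ∈ s, ((Ω.filter (fun ω => b ω = z)).card : ℝ) * f z := by
      rw [← sum_fiberwise_of_maps_to (s := Ω.filter (fun ω => b ω ∈ s)) (t := s) (g := b)
        (fun ω hω => (mem_filter.1 hω).2)]
      apply sum_congr rfl
      intro z hz
      have h3 : (Ω.filter (fun ω => b ω ∈ s)).filter (fun ω => b ω = z) =
          Ω.filter (fun ω => b ω = z) := by
        ext ω
        simp only [mem_filter]
        constructor
        · rintro ⟨⟨h4, _⟩, h5⟩
          exact ⟨h4, h5⟩
        · rintro ⟨h4, h5⟩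
          exact ⟨⟨h4, h5 ▸ hz⟩, h5⟩
      rw [h3, sum_congr rfl (g := fun _ => f z) (fun ω hω => by rw [(mem_filter.1 hω).2]), sum_const,
        nsmul_eq_mul]
    rw [h2, hs, sum_E, h0]
    congr 1
    apply sum_congr rfl
    intro j hj
    rw [h1 j hj]
  have hsum := sum_filter_add_sum_filter_not Ω (fun ω => b ω ∈ s) (fun ω => φ (b ω))
  have hcard := sum_filter_add_sum_filter_not Ω (fun ω => b ω ∈ s) (fun _ => (1 : ℝ))
  have h3 := hin (fun _ => 1)
  simp only [mul_one] at h3
  rw [h3, sum_const, sum_const, sum_const, card_range, nsmul_eq_mul, nsmul_eq_mul, nsmul_eq_mul,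
    mul_one, mul_one] at hcard
  rw [hin φ] at hsum
  have h4 : |∑ ω ∈ Ω.filter (fun ω => ¬ b ω ∈ s), φ (b ω)| ≤
      ((Ω.filter (fun ω => ¬ b ω ∈ s)).card : ℝ) := by
    calc _ ≤ ∑ ω ∈ Ω.filter (fun ω => ¬ b ω ∈ s), |φ (b ω)| := abs_sum_le_sum_abs _ _
      _ ≤ ∑ _ω ∈ Ω.filter (fun ω => ¬ b ω ∈ s), (1 : ℝ) := sum_le_sum fun ω _ => hφ _
      _ = _ := by rw [sum_const, nsmul_eq_mul, mul_one]
  have h5 : (∑ ω ∈ Ω, φ (b ω)) / Ω.card - (∑ j ∈ range k, ((c1 : ℝ) / Ω.card) * φ (E k j) +
      ((c0 : ℝ) / Ω.card) * φ 0) = (∑ ω ∈ Ω.filter (fun ω => ¬ b ω ∈ s), φ (b ω)) / Ω.card := by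
    rw [← hsum]
    have h6 : ∑ j ∈ range k, ((c1 : ℝ) / Ω.card) * φ (E k j) =
        (∑ j ∈ range k, (c1 : ℝ) * φ (E k j)) / Ω.card := by
      rw [sum_div]
      apply sum_congr rfl
      intro j _
      ring
    rw [h6]
    field_simp
    ring
  rw [h5, abs_div, abs_of_pos hN, div_le_iff₀ hN]
  have h7 : (1 - k * ((c1 : ℝ) / Ω.card) - (c0 : ℝ) / Ω.card) * Ω.card =
      Ω.card - k * c1 - c0 := by
    field_simp
  rw [h7]
  linarith

theorem Mo_single {q : ℕ} (L : ℕ → ℕ) (hL : L q = 1) : Mo L {q} = q := by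
  unfold Mo
  rw [prod_singleton, hL, pow_one]

theorem val_one (q m : ℕ) : H19.OM.val q 1 m = if q ∣ m then 1 else 0 := by
  unfold H19.OM.val
  rw [Icc_self, filter_singleton, pow_one]
  split_ifs <;> simp

theorem vec_shift {q k n : ℕ} (hk : k ≤ q) (hn : n < q) (i : Fin k) :
    (if q ∣ n + i then 1 else 0) = E k ((q - n) % q) i := by
  have hi := i.2
  unfold E
  have h1 : q ∣ n + i ↔ (i : ℕ) = (q - n) % q := by
    rcases Nat.eq_zero_or_pos n with h0 | h0
    · subst h0
      rw [Nat.sub_zero, Nat.mod_self, zero_add]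
      constructor
      · intro h
        by_contra h2
        have := Nat.le_of_dvd (by omega) h
        omega
      · intro h
        rw [h]
        exact dvd_zero q
    · rw [Nat.mod_eq_of_lt (by omega)]
      constructor
      · rintro ⟨c, hc⟩
        have hc1 : c = 1 := by
          have h3 : 0 < c := by
            rcases Nat.eq_zero_or_pos c with h | h
            · subst h; omega
            · exact h
          have h4 : c < 2 := by
            by_contra h5
            have : q * 2 ≤ q * c := Nat.mul_le_mul_left q (by omega)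
            omega
          omega
        subst hc1
        omega
      · intro h
        exact ⟨1, by omega⟩
  simp only [h1]

theorem J_eq {q k : ℕ} (L : ℕ → ℕ) (hq : 0 < q) (hk : k ≤ q) (hL : L q = 1)
    (φ : (Fin k → ℕ) → ℝ) :
    J L {q} φ = ∑ j ∈ range k, (1 / (q : ℝ)) * φ (E k j) + (1 - k / (q : ℝ)) * φ 0 := by
  have hq' : (0 : ℝ) < q := by exact_mod_cast hq
  have h1 : ∑ n ∈ range q, φ (fun i => ∑ p ∈ {q}, val p (L p) (n + i)) =
      ∑ j ∈ range q, φ (E k j) := by
    refine sum_nbij' (fun n => (q - n) % q) (fun n => (q - n) % q) ?_ ?_ ?_ ?_ ?_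
    · intro n _
      exact mem_range.2 (Nat.mod_lt _ hq)
    · intro n _
      exact mem_range.2 (Nat.mod_lt _ hq)
    · intro n hn
      rw [mem_range] at hn
      rcases Nat.eq_zero_or_pos n with h0 | h0
      · subst h0; simp
      · rw [Nat.mod_eq_of_lt (show q - n < q by omega), show q - (q - n) = n by omega,
          Nat.mod_eq_of_lt hn]
    · intro n hn
      rw [mem_range] at hn
      rcases Nat.eq_zero_or_pos n with h0 | h0
      · subst h0; simp
      · rw [Nat.mod_eq_of_lt (show q - n < q by omega), show q - (q - n) = n by omega,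
          Nat.mod_eq_of_lt hn]
    · intro n hn
      rw [mem_range] at hn
      congr 1
      funext i
      rw [sum_singleton, hL, val_one]
      exact vec_shift hk hn i
  unfold J
  rw [Mo_single L hL, h1, ← sum_range_add_sum_Ico _ hk]
  have h2 : ∑ j ∈ Ico k q, φ (E k j) = ((q : ℝ) - k) * φ 0 := by
    rw [sum_congr rfl (g := fun _ => φ 0) (fun j hj => by rw [E_ge (mem_Ico.1 hj).1]), sum_const,
      Nat.card_Ico, nsmul_eq_mul, Nat.cast_sub hk]
  rw [h2, ← mul_sum]
  field_simp

theorem I_dec {q k : ℕ} (L : ℕ → ℕ) (hq : 0 < q) (hk1 : 1 ≤ k) (hL : L q = 1)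
    {φ : (Fin k → ℕ) → ℝ} (hφ : Bd φ) :
    |I L {q} φ - (∑ j ∈ range k, ((1 / (q : ℝ)) * (1 - 1 / q) ^ (k - 1)) * φ (E k j) +
      (1 - 1 / (q : ℝ)) ^ k * φ 0)| ≤
      1 - k * ((1 / (q : ℝ)) * (1 - 1 / q) ^ (k - 1)) - (1 - 1 / (q : ℝ)) ^ k := by
  have hq' : (0 : ℝ) < q := by exact_mod_cast hq
  obtain ⟨Ω, hΩ⟩ : ∃ Ω : Finset (Fin k → ℕ), Ω = Fintype.piFinset (fun _ : Fin k => range q) :=
    ⟨_, rfl⟩
  have hcard : Ω.card = q ^ k := by
    rw [hΩ, Fintype.card_piFinset, prod_const, card_range, card_univ, Fintype.card_fin]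
  have hdvd : ∀ ω ∈ Ω, ∀ i, q ∣ ω i ↔ ω i = 0 := by
    intro ω hω i
    rw [hΩ, Fintype.mem_piFinset] at hω
    have h1 := mem_range.1 (hω i)
    constructor
    · intro h
      by_contra h2
      have := Nat.le_of_dvd (by omega) h
      omega
    · intro h
      rw [h]
      exact dvd_zero q
  have he : ((range q).erase 0).card = q - 1 := by
    rw [card_erase_of_mem (mem_range.2 hq), card_range]
  obtain ⟨b, hb⟩ : ∃ b : (Fin k → ℕ) → (Fin k → ℕ), b = fun ω i => if q ∣ ω i then 1 else 0 :=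
    ⟨_, rfl⟩
  have h0 : (Ω.filter (fun ω => b ω = 0)).card = (q - 1) ^ k := by
    have h1 : Ω.filter (fun ω => b ω = 0) = Fintype.piFinset (fun _ : Fin k => (range q).erase 0) := by
      ext ω
      rw [mem_filter, Fintype.mem_piFinset]
      constructor
      · rintro ⟨h2, h3⟩ i
        have h4 := congrFun h3 i
        rw [hb] at h4
        simp only [Pi.zero_apply] at h4
        have h5 : ¬ q ∣ ω i := by
          intro h
          rw [if_pos h] at h4
          omega
        rw [hdvd ω h2 i] at h5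
        rw [hΩ, Fintype.mem_piFinset] at h2
        exact mem_erase.2 ⟨h5, h2 i⟩
      · intro h2
        have h3 : ω ∈ Ω := by
          rw [hΩ, Fintype.mem_piFinset]
          exact fun i => mem_of_mem_erase (h2 i)
        refine ⟨h3, ?_⟩
        funext i
        rw [hb]
        simp only [Pi.zero_apply]
        rw [if_neg]
        rw [hdvd ω h3 i]
        exact ne_of_mem_erase (h2 i)
    rw [h1, Fintype.card_piFinset, prod_const, he, card_univ, Fintype.card_fin]
  have h1 : ∀ j ∈ range k, (Ω.filter (fun ω => b ω = E k j)).card = (q - 1) ^ (k - 1) := by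
    intro j hj
    rw [mem_range] at hj
    have h1 : Ω.filter (fun ω => b ω = E k j) =
        Fintype.piFinset (fun i : Fin k => if (i : ℕ) = j then {0} else (range q).erase 0) := by
      ext ω
      rw [mem_filter, Fintype.mem_piFinset]
      constructor
      · rintro ⟨h2, h3⟩ i
        have h4 := congrFun h3 i
        rw [hb] at h4
        unfold E at h4
        simp only at h4
        have h6 := hdvd ω h2 i
        rw [hΩ, Fintype.mem_piFinset] at h2
        split_ifs with h5
        · rw [if_pos h5] at h4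
          rw [mem_singleton]
          by_contra h7
          rw [← h6] at h7
          rw [if_neg h7] at h4
          omega
        · rw [if_neg h5] at h4
          refine mem_erase.2 ⟨fun h7 => ?_, h2 i⟩
          rw [← h6] at h7
          rw [if_pos h7] at h4
          omega
      · intro h2
        have h3 : ω ∈ Ω := by
          rw [hΩ, Fintype.mem_piFinset]
          intro i
          have h4 := h2 i
          split_ifs at h4 with h5
          · rw [mem_singleton] at h4
            rw [h4]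
            exact mem_range.2 hq
          · exact mem_of_mem_erase h4
        refine ⟨h3, ?_⟩
        funext i
        rw [hb]
        unfold E
        simp only
        have h4 := h2 i
        split_ifs at h4 with h5
        · rw [mem_singleton] at h4
          rw [if_pos h5, if_pos ((hdvd ω h3 i).2 h4)]
        · rw [if_neg h5, if_neg]
          rw [hdvd ω h3 i]
          exact ne_of_mem_erase h4
    rw [h1, Fintype.card_piFinset]
    have h2 : ∀ i : Fin k, ((if (i : ℕ) = j then {0} else (range q).erase 0 : Finset ℕ)).card =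
        if i = ⟨j, hj⟩ then 1 else q - 1 := by
      intro i
      by_cases h : (i : ℕ) = j
      · rw [if_pos h, if_pos (Fin.ext h), card_singleton]
      · rw [if_neg h, if_neg (fun h' => h (by rw [h'])), he]
    rw [prod_congr rfl fun i _ => h2 i, prod_ite, prod_const_one, one_mul, prod_const, filter_ne',
      card_erase_of_mem (mem_univ _), card_univ, Fintype.card_fin]
  have hmain := dec_fin Ω b (by rw [hcard]; positivity) hφ _ _ h0 h1
  have hI : I L {q} φ = (∑ ω ∈ Ω, φ (b ω)) / Ω.card := by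
    unfold I
    rw [Mo_single L hL, hcard, ← hΩ, hb]
    congr 1
    · apply sum_congr rfl
      intro ω _
      congr 1
      funext i
      rw [sum_singleton, hL, val_one]
    · push_cast
      rfl
  have hq1 : ((q - 1 : ℕ) : ℝ) = q - 1 := by
    rw [Nat.cast_sub hq]
    norm_num
  have hu : (((q - 1) ^ k : ℕ) : ℝ) / (Ω.card : ℝ) = (1 - 1 / (q : ℝ)) ^ k := by
    rw [hcard]
    push_cast
    rw [hq1, ← div_pow, sub_div, div_self hq'.ne']
  have hv : (((q - 1) ^ (k - 1) : ℕ) : ℝ) / (Ω.card : ℝ) =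
      (1 / (q : ℝ)) * (1 - 1 / (q : ℝ)) ^ (k - 1) := by
    rw [hcard]
    push_cast
    have h2 : (q : ℝ) ^ k = q ^ (k - 1) * q := by
      rw [← pow_succ, Nat.sub_add_cancel hk1]
    have h3 : (1 - 1 / (q : ℝ)) = (q - 1) / q := by
      field_simp
    rw [hq1, h2, h3, div_pow]
    field_simp
  rw [hI]
  rw [hu, hv] at hmain
  exact hmain

theorem t_PQ : S_PQ := by
  intro q k L hq hk1 hk hL φ hφ
  have hq0 : 0 < q := hq.pos
  have hq' : (0 : ℝ) < q := by exact_mod_cast hq0
  have hk' : (1 : ℝ) ≤ k := by exact_mod_cast hk1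
  have hkq : (k : ℝ) ≤ q := by exact_mod_cast hk
  have hP := decP (1 / (q : ℝ≥0)) k hφ
  have ha : ((1 / (q : ℝ≥0) : ℝ≥0) : ℝ) = 1 / (q : ℝ) := by
    push_cast
    rfl
  rw [ha] at hP
  have hx : (k : ℝ) * (1 / q) = k / q := by ring
  obtain ⟨x, hxd⟩ : ∃ x : ℝ, x = (k : ℝ) / q := ⟨_, rfl⟩
  obtain ⟨a, had⟩ : ∃ a : ℝ, a = 1 / (q : ℝ) := ⟨_, rfl⟩
  have hxa : (k : ℝ) * a = x := by rw [had, hxd, hx]
  have ha0 : 0 < a := by rw [had]; positivity
  have hx0 : 0 < x := by rw [hxd]; positivity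
  have hx1 : x ≤ 1 := by rw [hxd, div_le_one hq']; exact hkq
  have ha1 : a ≤ x := by
    rw [← hxa]
    nlinarith
  obtain ⟨e, hed⟩ : ∃ e : ℝ, e = Real.exp (-(k * a)) := ⟨_, rfl⟩
  have he1 : 1 - x ≤ e := by
    rw [hed, hxa]
    have := Real.add_one_le_exp (-x)
    linarith
  have he2 : e ≤ 1 := by
    rw [hed, hxa]
    exact Real.exp_le_one_iff.2 (by linarith)
  rw [← had, ← hed] at hP
  constructor
  · have hJ : |J L {q} φ - (∑ j ∈ range k, a * φ (E k j) + (1 - x) * φ 0)| ≤ 0 := by
      rw [J_eq L hq0 hk hL φ, ← had, ← hxd, sub_self, abs_zero]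
    have h1 := comb hφ hJ hP
    have h2 : |(1 - x) - e| = e - (1 - x) := by
      rw [abs_sub_comm]
      exact abs_of_nonneg (by linarith)
    have h3 : |a - a * e| = a * (1 - e) := by
      rw [show a - a * e = a * (1 - e) by ring]
      exact abs_of_nonneg (mul_nonneg ha0.le (by linarith))
    rw [h2, h3] at h1
    have h4 : (k : ℝ) * (a * (1 - e)) = x * (1 - e) := by rw [← hxa]; ring
    have h5 : (k : ℝ) * (a * e) = x * e := by rw [← hxa]; ring
    rw [h4, h5] at h1
    rw [← hxd]
    nlinarith [mul_nonneg hx0.le (sub_nonneg.2 he1), sq_nonneg x]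
  · have hI := I_dec L hq0 hk1 hL hφ
    rw [← had] at hI
    obtain ⟨u, hud⟩ : ∃ u : ℝ, u = (1 - a) ^ k := ⟨_, rfl⟩
    obtain ⟨v, hvd⟩ : ∃ v : ℝ, v = (1 - a) ^ (k - 1) := ⟨_, rfl⟩
    rw [← hud, ← hvd] at hI
    have h1a : 0 ≤ 1 - a := by linarith
    have hu1 : 1 - x ≤ u := by
      have h := one_add_mul_le_pow (show (-2 : ℝ) ≤ -a by linarith) k
      rw [hud, ← hxa]
      have h' : (1 + -a) = 1 - a := by ring
      rw [h'] at h
      linarith
    have hu2 : u ≤ e := by
      rw [hud, hed]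
      have h := Real.add_one_le_exp (-a)
      calc (1 - a) ^ k ≤ (Real.exp (-a)) ^ k := pow_le_pow_left₀ h1a (by linarith) k
        _ = Real.exp (-(k * a)) := by
          rw [← Real.exp_nat_mul]
          congr 1
          ring
    have hv1 : 1 - x ≤ v := by
      have h := one_add_mul_le_pow (show (-2 : ℝ) ≤ -a by linarith) (k - 1)
      rw [hvd, ← hxa]
      have h' : (1 + -a) = 1 - a := by ring
      rw [h', Nat.cast_sub hk1] at h
      push_cast at h
      nlinarith
    have hv2 : v ≤ 1 := by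
      rw [hvd]
      exact pow_le_one₀ h1a (by linarith)
    have h1 := comb hφ hI hP
    have h2 : |u - e| = e - u := by
      rw [abs_sub_comm]
      exact abs_of_nonneg (by linarith)
    have h3 : |a * v - a * e| ≤ a * x := by
      rw [show a * v - a * e = a * (v - e) by ring, abs_mul, abs_of_pos ha0]
      apply mul_le_mul_of_nonneg_left _ ha0.le
      rw [abs_le]
      constructor <;> linarith
    have h3' : (k : ℝ) * |a * v - a * e| ≤ x * x := by
      calc (k : ℝ) * |a * v - a * e| ≤ k * (a * x) :=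
            mul_le_mul_of_nonneg_left h3 (by linarith)
        _ = x * x := by rw [← mul_assoc, hxa]
    have h4 : (k : ℝ) * (a * v) = x * v := by rw [← hxa]; ring
    have h5 : (k : ℝ) * (a * e) = x * e := by rw [← hxa]; ring
    rw [h2, h4, h5] at h1
    rw [← hxd]
    nlinarith [mul_nonneg hx0.le (sub_nonneg.2 he1), mul_nonneg hx0.le (sub_nonneg.2 hv1)]

end Pool.Agent.H85.OM
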