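import Pool.Agent.H19.OM.Stm4

/-!
# AFF of the project OM: two shifts of the product of Poisson laws overlap
-/

set_option autoImplicit false

namespace Pool.Agent.H85.OM

open Finset MeasureTheory ProbabilityTheory Pool.Agent.H19.OM
open scoped NNReal

theorem gg_nonneg (a : ℝ≥0) {k : ℕ} (u w : Fin k → ℕ) : 0 ≤ gg a u w := by
  unfold gg
  exact prod_nonneg fun i _ => by positivity

theorem gg_mul (a : ℝ≥0) {k : ℕ} (d e w : Fin k → ℕ) (h : ∀ i, d i = 0 ∨ e i = 0) :
    gg a d w * gg a e w = gg a (d + e) w := by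
  unfold gg
  rw [← prod_mul_distrib]
  apply prod_congr rfl
  intro i _
  rcases h i with h | h
  · simp [h]
  · simp [h]

theorem cc_le {a : ℝ} (ha : 0 < a) (m : ℕ) : cc a m m ≤ Real.exp ((m : ℝ) ^ 2 / a) := by
  unfold cc
  refine le_trans (sum_le_sum fun j _ => ?_)
    (Real.sum_le_exp_of_nonneg (by positivity : 0 ≤ (m : ℝ) ^ 2 / a) (m + 1))
  have h1 : (m.choose j : ℝ) ≤ (m : ℝ) ^ j / j.factorial := Nat.choose_le_pow_div j m
  have hf : (0 : ℝ) < j.factorial := by exact_mod_cast j.factorial_pos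
  calc (m.choose j : ℝ) * m.choose j * j.factorial / a ^ j
      ≤ ((m : ℝ) ^ j / j.factorial) * ((m : ℝ) ^ j / j.factorial) * j.factorial / a ^ j := by
        gcongr
    _ = ((m : ℝ) ^ 2 / a) ^ j / j.factorial := by
        rw [div_pow]
        field_simp
        ring

theorem one_le_cc {a : ℝ} (ha : 0 < a) (m : ℕ) : 1 ≤ cc a m m := by
  unfold cc
  have h := single_le_sum (f := fun j => (m.choose j : ℝ) * m.choose j * j.factorial / a ^ j)
    (s := range (m + 1)) (fun j _ => by positivity) (mem_range.2 (Nat.succ_pos m))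
  simpa using h

/-- the tangent of the square root as a function of `G` and `G ^ 2` -/
theorem sqrt_ge {G s : ℝ} (hG : 0 ≤ G) (hs : 0 < s) :
    3 / (2 * s) * G - 1 / (2 * s ^ 3) * (G * G) ≤ Real.sqrt G := by
  obtain ⟨r, hr⟩ : ∃ r, r = Real.sqrt G := ⟨_, rfl⟩
  have hr0 : 0 ≤ r := by rw [hr]; exact Real.sqrt_nonneg _
  have hG2 : G = r ^ 2 := by rw [hr, Real.sq_sqrt hG]
  rw [← hr, hG2]
  obtain ⟨y, hy⟩ : ∃ y, y = r / s := ⟨_, rfl⟩
  have hy0 : 0 ≤ y := by rw [hy]; positivity
  have hry : r = s * y := by rw [hy]; field_simp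
  rw [hry]
  have h1 : 3 / (2 * s) * (s * y) ^ 2 - 1 / (2 * s ^ 3) * ((s * y) ^ 2 * (s * y) ^ 2) =
      s * (3 / 2 * y ^ 2 - 1 / 2 * y ^ 4) := by
    field_simp
  rw [h1]
  apply mul_le_mul_of_nonneg_left _ hs.le
  nlinarith [mul_nonneg hy0 (mul_nonneg (sq_nonneg (y - 1)) (by linarith : 0 ≤ y + 2))]

theorem sqrt_le_mix {f g t : ℝ} (hf : 0 ≤ f) (hg : 0 ≤ g) (ht : 0 < t) :
    Real.sqrt (f * g) ≤ (t * min f g + (f + g - min f g) / t) / 2 := by
  have key : ∀ f g : ℝ, 0 ≤ f → 0 ≤ g → Real.sqrt (f * g) ≤ (t * f + g / t) / 2 := by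
    intro f g hf hg
    apply Real.sqrt_le_iff.2
    constructor
    · positivity
    · have h : ((t * f + g / t) / 2) ^ 2 - f * g = ((t * f - g / t) / 2) ^ 2 := by
        field_simp
        ring
      nlinarith [sq_nonneg ((t * f - g / t) / 2)]
  rcases le_total f g with h | h
  · rw [min_eq_left h]
    have := key f g hf hg
    rwa [show f + g - f = g by ring]
  · rw [min_eq_right h, mul_comm f g]
    have := key g f hg hf
    rwa [show f + g - g = f by ring]

theorem t_AFF (hSHI : S_SHI) (hGRA : S_GRA) : S_AFF := by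
  intro a ha k u v φ hφ
  have ha' : (0 : ℝ) < a := by exact_mod_cast ha
  obtain ⟨μ, hμ⟩ : ∃ μ : Measure (Fin k → ℕ), μ = Measure.pi (fun _ : Fin k => poissonMeasure a) :=
    ⟨_, rfl⟩
  have hprob : IsProbabilityMeasure μ := by
    rw [hμ]
    infer_instance
  have hP : ∀ ψ : (Fin k → ℕ) → ℝ, P a ψ = ∫ w, ψ w ∂μ := by
    intro ψ
    unfold P
    rw [hμ]
  obtain ⟨z, hz⟩ : ∃ z : Fin k → ℕ, z = fun i => min (u i) (v i) := ⟨_, rfl⟩
  obtain ⟨d, hd⟩ : ∃ d : Fin k → ℕ, d = fun i => u i - v i := ⟨_, rfl⟩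
  obtain ⟨e, he⟩ : ∃ e : Fin k → ℕ, e = fun i => v i - u i := ⟨_, rfl⟩
  have hde : ∀ i, d i = 0 ∨ e i = 0 := by
    intro i
    rw [hd, he]
    simp only
    omega
  have hu : u = d + z := by
    funext i
    rw [hd, hz]
    simp only [Pi.add_apply]
    omega
  have hv : v = e + z := by
    funext i
    rw [he, hz]
    simp only [Pi.add_apply]
    omega
  have hm2 : ∀ i, (((d + e) i : ℕ) : ℝ) ^ 2 = ((u i : ℝ) - v i) ^ 2 := by
    intro i
    rw [hd, he]
    simp only [Pi.add_apply]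
    rcases le_total (u i) (v i) with h | h
    · rw [Nat.sub_eq_zero_of_le h, zero_add, Nat.cast_sub h]
      ring
    · rw [Nat.sub_eq_zero_of_le h, add_zero, Nat.cast_sub h]
  obtain ⟨ψ, hψ⟩ : ∃ ψ : (Fin k → ℕ) → ℝ, ψ = fun w => φ (w + z) := ⟨_, rfl⟩
  have hψb : Bd ψ := by
    intro w
    rw [hψ]
    exact hφ _
  have hone : Bd (fun _ : Fin k → ℕ => (1 : ℝ)) := by
    intro w
    simp
  have hint : ∀ c : Fin k → ℕ, Integrable (fun w => gg a c w) μ := by
    intro c
    have h := (hSHI a ha k c _ hone).1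
    simp only [one_mul] at h
    rw [hμ]
    exact h
  have hmass : ∀ c : Fin k → ℕ, ∫ w, gg a c w ∂μ = 1 := by
    intro c
    have h := (hSHI a ha k c _ hone).2
    simp only [one_mul] at h
    rw [hP, hP] at h
    rw [← h]
    simp
  obtain ⟨G, hG⟩ : ∃ G : (Fin k → ℕ) → ℝ, G = fun w => gg a (d + e) w := ⟨_, rfl⟩
  have hG0 : ∀ w, 0 ≤ G w := by
    intro w
    rw [hG]
    exact gg_nonneg _ _ _
  have hGi : Integrable G μ := by
    rw [hG]
    exact hint _
  obtain ⟨M, hM⟩ : ∃ M : ℝ, M = ∏ i, cc a ((d + e) i) ((d + e) i) := ⟨_, rfl⟩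
  have hGG : Integrable (fun w => G w * G w) μ ∧ ∫ w, G w * G w ∂μ = M := by
    have h := hGRA a ha k (d + e) (d + e)
    rw [hG, hμ]
    refine ⟨h.1, ?_⟩
    rw [hM, ← h.2, hP, hμ]
  have hM1 : 1 ≤ M := by
    rw [hM]
    calc (1 : ℝ) = ∏ _i : Fin k, (1 : ℝ) := by simp
      _ ≤ _ := prod_le_prod (fun i _ => zero_le_one) fun i _ => one_le_cc ha' _
  have hMe : M ≤ Real.exp ((∑ i, ((u i : ℝ) - v i) ^ 2) / a) := by
    rw [hM, sum_div, Real.exp_sum]
    apply prod_le_prod
    · intro i _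
      exact zero_le_one.trans (one_le_cc ha' _)
    · intro i _
      refine (cc_le ha' _).trans ?_
      rw [hm2]
  -- the mean of the square root
  obtain ⟨S, hS⟩ : ∃ S : ℝ, S = ∫ w, Real.sqrt (G w) ∂μ := ⟨_, rfl⟩
  have hSi : Integrable (fun w => Real.sqrt (G w)) μ := by
    refine Integrable.mono' ((integrable_const (1 : ℝ)).add hGi)
      (Measurable.of_discrete.aestronglyMeasurable) (Filter.Eventually.of_forall fun w => ?_)
    rw [Real.norm_eq_abs, abs_of_nonneg (Real.sqrt_nonneg _)]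
    simp only [Pi.add_apply]
    apply Real.sqrt_le_iff.2
    have := hG0 w
    constructor
    · linarith
    · nlinarith
  obtain ⟨s, hs⟩ : ∃ s : ℝ, s = Real.sqrt M := ⟨_, rfl⟩
  have hs0 : 0 < s := by
    rw [hs]
    exact Real.sqrt_pos.2 (by linarith)
  have hs2 : s ^ 2 = M := by
    rw [hs]
    exact Real.sq_sqrt (by linarith)
  have hS1 : 1 / s ≤ S := by
    have h1 : ∫ w, (3 / (2 * s) * G w - 1 / (2 * s ^ 3) * (G w * G w)) ∂μ ≤ S := by
      rw [hS]
      apply integral_mono
      · exact (hGi.const_mul _).sub (hGG.1.const_mul _)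
      · exact hSi
      · intro w
        exact sqrt_ge (hG0 w) hs0
    rw [integral_sub (hGi.const_mul _) (hGG.1.const_mul _), integral_const_mul,
      integral_const_mul, hGG.2, ← hs2] at h1
    have h2 : ∫ w, G w ∂μ = 1 := by
      rw [hG]
      exact hmass _
    rw [h2] at h1
    have h3 : 3 / (2 * s) * 1 - 1 / (2 * s ^ 3) * s ^ 2 = 1 / s := by
      field_simp
      ring
    rwa [h3] at h1
  have hSpos : 0 < S := lt_of_lt_of_le (by positivity) hS1
  -- the common part
  obtain ⟨f, hf⟩ : ∃ f : (Fin k → ℕ) → ℝ, f = fun w => gg a d w := ⟨_, rfl⟩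
  obtain ⟨g, hg⟩ : ∃ g : (Fin k → ℕ) → ℝ, g = fun w => gg a e w := ⟨_, rfl⟩
  have hf0 : ∀ w, 0 ≤ f w := by
    intro w
    rw [hf]
    exact gg_nonneg _ _ _
  have hg0 : ∀ w, 0 ≤ g w := by
    intro w
    rw [hg]
    exact gg_nonneg _ _ _
  have hfi : Integrable f μ := by
    rw [hf]
    exact hint _
  have hgi : Integrable g μ := by
    rw [hg]
    exact hint _
  have hfm : ∫ w, f w ∂μ = 1 := by
    rw [hf]
    exact hmass _
  have hgm : ∫ w, g w ∂μ = 1 := by
    rw [hg]
    exact hmass _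
  have hfg : ∀ w, G w = f w * g w := by
    intro w
    rw [hG, hf, hg]
    exact (gg_mul a d e w hde).symm
  obtain ⟨A, hA⟩ : ∃ A : ℝ, A = ∫ w, min (f w) (g w) ∂μ := ⟨_, rfl⟩
  have hAi : Integrable (fun w => min (f w) (g w)) μ := hfi.inf hgi
  have hA0 : 0 ≤ A := by
    rw [hA]
    exact integral_nonneg fun w => le_min (hf0 w) (hg0 w)
  have hfgi : Integrable (fun w => f w + g w) μ := hfi.add hgi
  have hfgm : ∫ w, (f w + g w) ∂μ = 1 + 1 := by
    rw [integral_add hfi hgi, hfm, hgm]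
  have hSA : S ^ 2 ≤ 2 * A := by
    have h1 : ∀ t : ℝ, 0 < t → S ≤ (t * A + (1 + 1 - A) / t) / 2 := by
      intro t ht
      have hi1 : Integrable (fun w => t * min (f w) (g w)) μ := hAi.const_mul t
      have hi2 : Integrable (fun w => f w + g w - min (f w) (g w)) μ := hfgi.sub hAi
      have hi3 : Integrable (fun w => (f w + g w - min (f w) (g w)) / t) μ := hi2.div_const t
      have h2 : S ≤ ∫ w, (t * min (f w) (g w) + (f w + g w - min (f w) (g w)) / t) / 2 ∂μ := by
        rw [hS]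
        apply integral_mono hSi
        · exact (hi1.add hi3).div_const 2
        · intro w
          simp only
          rw [hfg]
          exact sqrt_le_mix (hf0 w) (hg0 w) ht
      rw [integral_div, integral_add hi1 hi3, integral_const_mul, integral_div,
        integral_sub hfgi hAi, hfgm, ← hA] at h2
      exact h2
    have h2 := h1 (2 / S) (by positivity)
    have h3 : (2 / S * A + (1 + 1 - A) / (2 / S)) / 2 ≤ A / S + S / 2 := by
      have h4 : (1 + 1 - A) / (2 / S) ≤ S := by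
        rw [div_div_eq_mul_div]
        nlinarith [mul_nonneg hA0 hSpos.le]
      have h5 : 2 / S * A = 2 * (A / S) := by ring
      rw [h5]
      linarith
    have h4 : S / 2 ≤ A / S := by linarith
    rw [div_le_div_iff₀ (by norm_num) hSpos] at h4
    nlinarith
  -- conclusion
  have hdiff : P a (fun w => φ (w + u)) - P a (fun w => φ (w + v)) =
      ∫ w, (ψ w * f w - ψ w * g w) ∂μ := by
    have h1 : (fun w => φ (w + u)) = fun w => ψ (w + d) := by
      funext w
      rw [hψ, hu]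
      show φ (w + (d + z)) = φ (w + d + z)
      rw [add_assoc]
    have h2 : (fun w => φ (w + v)) = fun w => ψ (w + e) := by
      funext w
      rw [hψ, hv]
      show φ (w + (e + z)) = φ (w + e + z)
      rw [add_assoc]
    have h3 := hSHI a ha k d ψ hψb
    have h4 := hSHI a ha k e ψ hψb
    rw [h1, h2, h3.2, h4.2, hP, hP]
    rw [← hμ] at h3 h4
    rw [hf, hg]
    exact (integral_sub h3.1 h4.1).symm
  have hψf : Integrable (fun w => ψ w * f w) μ := by
    have h3 := (hSHI a ha k d ψ hψb).1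
    rw [hf, hμ]
    exact h3
  have hψg : Integrable (fun w => ψ w * g w) μ := by
    have h3 := (hSHI a ha k e ψ hψb).1
    rw [hg, hμ]
    exact h3
  have hbound : |∫ w, (ψ w * f w - ψ w * g w) ∂μ| ≤
      ∫ w, (f w + g w - 2 * min (f w) (g w)) ∂μ := by
    rw [← Real.norm_eq_abs]
    refine (norm_integral_le_integral_norm _).trans ?_
    apply integral_mono
    · exact (hψf.sub hψg).norm
    · exact hfgi.sub (hAi.const_mul 2)
    · intro w
      simp only
      rw [Real.norm_eq_abs, ← mul_sub, abs_mul]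
      have h1 : |f w - g w| = f w + g w - 2 * min (f w) (g w) := by
        rcases le_total (f w) (g w) with h | h
        · rw [min_eq_left h, abs_of_nonpos (by linarith)]
          ring
        · rw [min_eq_right h, abs_of_nonneg (by linarith)]
          ring
      rw [← h1]
      calc |ψ w| * |f w - g w| ≤ 1 * |f w - g w| :=
            mul_le_mul_of_nonneg_right (hψb w) (abs_nonneg _)
        _ = |f w - g w| := one_mul _
  rw [hdiff]
  refine hbound.trans ?_
  rw [integral_sub hfgi (hAi.const_mul 2), hfgm, integral_const_mul, ← hA]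
  have h1 : Real.exp (-(∑ i, ((u i : ℝ) - v i) ^ 2) / a) ≤ S ^ 2 := by
    have h2 : Real.exp (-(∑ i, ((u i : ℝ) - v i) ^ 2) / a) ≤ 1 / M := by
      rw [neg_div, Real.exp_neg, ← one_div]
      exact one_div_le_one_div_of_le (by linarith) hMe
    have h3 : 1 / M = (1 / s) ^ 2 := by
      rw [div_pow, hs2, one_pow]
    rw [h3] at h2
    exact h2.trans (pow_le_pow_left₀ (by positivity) hS1 2)
  linarith

end Pool.Agent.H85.OM
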