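import Pool.Agent.H19.OM.Stm2
import Pool.Agent.H85.OM.PQ

/-!
# CB of the project OM: the characteristic functions at the large primes
-/

set_option autoImplicit false

namespace Pool.Agent.H85.OM

open Finset Pool.Agent.H19.OM

/-- the statistic of the unit vector -/
noncomputable def ss (m j' : ℕ) : ℝ :=
  ∑ j ∈ range m, ((if 2 * j = j' then 1 else 0) - (if 2 * j + 1 = j' then 1 else 0))

theorem ss_even {m j : ℕ} (h : j < m) : ss m (2 * j) = 1 := by
  unfold ss
  rw [sum_eq_single j]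
  · rw [if_pos rfl, if_neg (by omega)]
    norm_num
  · intro i _ hi
    rw [if_neg (by omega), if_neg (by omega)]
    norm_num
  · intro h'
    exact absurd (mem_range.2 h) h'

theorem ss_odd {m j : ℕ} (h : j < m) : ss m (2 * j + 1) = -1 := by
  unfold ss
  rw [sum_eq_single j]
  · rw [if_neg (by omega), if_pos rfl]
    norm_num
  · intro i _ hi
    rw [if_neg (by omega), if_neg (by omega)]
    norm_num
  · intro h'
    exact absurd (mem_range.2 h) h'

theorem ss_ge {m j : ℕ} (h : 2 * m ≤ j) : ss m j = 0 := by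
  unfold ss
  apply sum_eq_zero
  intro i hi
  rw [mem_range] at hi
  rw [if_neg (by omega), if_neg (by omega)]
  norm_num

theorem sum_shift {β : Type} [AddCommMonoid β] (q : ℕ) (hq : 0 < q) (f : ℕ → β) :
    ∑ n ∈ range q, f ((q - n) % q) = ∑ j ∈ range q, f j := by
  refine sum_nbij' (fun n => (q - n) % q) (fun n => (q - n) % q) ?_ ?_ ?_ ?_ ?_
  · intro n _
    exact mem_range.2 (Nat.mod_lt _ hq)
  · intro n _
    exact mem_range.2 (Nat.mod_lt _ hq)
  · intro n hn
    rw [mem_range] at hn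
    rcases Nat.eq_zero_or_pos n with h0 | h0
    · subst h0; simp
    · rw [Nat.mod_eq_of_lt (show q - n < q by omega), show q - (q - n) = n by omega,
        Nat.mod_eq_of_lt hn]
  · intro n hn
    rw [mem_range] at hn
    rcases Nat.eq_zero_or_pos n with h0 | h0
    · subst h0; simp
    · rw [Nat.mod_eq_of_lt (show q - n < q by omega), show q - (q - n) = n by omega,
        Nat.mod_eq_of_lt hn]
  · intro n _
    rfl

theorem sum_pairs {β : Type} [AddCommMonoid β] (m : ℕ) (f : ℕ → β) :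
    ∑ j ∈ range (2 * m), f j = ∑ j ∈ range m, (f (2 * j) + f (2 * j + 1)) := by
  induction m with
  | zero => simp
  | succ m ih =>
    rw [show 2 * (m + 1) = 2 * m + 1 + 1 by ring, sum_range_succ, sum_range_succ, ih,
      sum_range_succ, add_assoc]

theorem stat_val {L : ℕ → ℕ} {p m n : ℕ} (hm : 2 * m < p) (hL : L p = 1) (hn : n < p) :
    stat 2 m 0 (fun i => ((∑ q ∈ {p}, H19.OM.val q (L q) (n + i) : ℕ) : ℝ)) =
      ss m ((p - n) % p) := by
  unfold stat ss
  apply sum_congr rfl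
  intro j hj
  rw [mem_range] at hj
  simp only [sum_singleton, hL, val_one]
  have h1 : j * 2 + 0 % 2 = 2 * j := by omega
  have h2 : j * 2 + (0 + 1) % 2 = 2 * j + 1 := by omega
  rw [h1, h2]
  have h3 := vec_shift (k := 2 * m) hm.le hn ⟨2 * j, by omega⟩
  have h4 := vec_shift (k := 2 * m) hm.le hn ⟨2 * j + 1, by omega⟩
  unfold E at h3 h4
  simp only at h3 h4
  rw [h3, h4]
  push_cast
  rfl

theorem charJ_eq (L : ℕ → ℕ) (p m : ℕ) (θ : ℝ) (hp : 0 < p) (hm : 2 * m < p) (hL : L p = 1) :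
    charJ L {p} m θ = ((1 - m * (2 / p * (1 - Real.cos θ)) : ℝ) : ℂ) := by
  have hpc : (p : ℂ) ≠ 0 := by
    exact_mod_cast hp.ne'
  have h1 : ∑ n ∈ range p, Complex.exp
      (((θ * stat 2 m 0 (fun i => ((∑ q ∈ {p}, H19.OM.val q (L q) (n + i) : ℕ) : ℝ)) : ℝ) : ℂ) *
        Complex.I) = ∑ j ∈ range p, Complex.exp (((θ * ss m j : ℝ) : ℂ) * Complex.I) := by
    rw [← sum_shift p hp (fun j => Complex.exp (((θ * ss m j : ℝ) : ℂ) * Complex.I))]
    apply sum_congr rfl
    intro n hn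
    rw [mem_range] at hn
    rw [stat_val hm hL hn]
  unfold charJ
  rw [Mo_single L hL, h1, ← sum_range_add_sum_Ico _ hm.le, sum_pairs]
  have h2 : ∀ j ∈ range m, Complex.exp (((θ * ss m (2 * j) : ℝ) : ℂ) * Complex.I) +
      Complex.exp (((θ * ss m (2 * j + 1) : ℝ) : ℂ) * Complex.I) = 2 * Complex.cos θ := by
    intro j hj
    rw [mem_range] at hj
    rw [ss_even hj, ss_odd hj, Complex.two_cos, mul_one, mul_neg_one]
    push_cast
    rfl
  have h3 : ∀ j ∈ Ico (2 * m) p, Complex.exp (((θ * ss m j : ℝ) : ℂ) * Complex.I) = 1 := by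
    intro j hj
    rw [ss_ge (mem_Ico.1 hj).1]
    simp
  rw [sum_congr rfl h2, sum_congr rfl h3, sum_const, sum_const, card_range, Nat.card_Ico,
    nsmul_eq_mul, nsmul_eq_mul, Nat.cast_sub hm.le]
  push_cast
  field_simp
  ring

theorem psi_sq (p : ℕ) (θ : ℝ) (hp : 0 < p) :
    ‖psi p 1 θ‖ ^ 2 = 1 - 2 / p * (1 - Real.cos θ) * (1 - 1 / p) := by
  have hpr : (p : ℝ) ≠ 0 := by
    exact_mod_cast hp.ne'
  have hpc : (p : ℂ) ≠ 0 := by
    exact_mod_cast hp.ne'
  have h1 : ∑ r ∈ range (p ^ 1), Complex.exp (((θ * H19.OM.val p 1 r : ℝ) : ℂ) * Complex.I) =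
      Complex.exp (θ * Complex.I) + (p - 1) := by
    rw [pow_one]
    obtain ⟨q, rfl⟩ : ∃ q, p = q + 1 := ⟨p - 1, by omega⟩
    rw [sum_range_succ']
    have h2 : ∀ r ∈ range q, Complex.exp (((θ * H19.OM.val (q + 1) 1 (r + 1) : ℝ) : ℂ) *
        Complex.I) = 1 := by
      intro r hr
      rw [mem_range] at hr
      rw [val_one, if_neg]
      · simp
      · intro h
        have := Nat.le_of_dvd (by omega) h
        omega
    rw [sum_congr rfl h2, sum_const, card_range, nsmul_eq_mul, val_one, if_pos (dvd_zero _)]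
    push_cast
    rw [mul_one]
    ring_nf
  have h2 : psi p 1 θ = (((p - 1 + Real.cos θ) / p : ℝ) : ℂ) +
      ((Real.sin θ / p : ℝ) : ℂ) * Complex.I := by
    unfold psi
    rw [h1, pow_one, Complex.exp_mul_I]
    push_cast
    field_simp
    ring
  rw [h2, Complex.sq_norm, Complex.normSq_add_mul_I]
  have h3 := Real.sin_sq_add_cos_sq θ
  field_simp
  nlinarith [h3]

theorem pow_bound (b : ℝ) (h0 : 0 ≤ b) (h2 : b ≤ 2) (m : ℕ) :
    |(1 - b) ^ m - (1 - m * b)| ≤ (m : ℝ) ^ 2 * b ^ 2 := by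
  have h1 : |1 - b| ≤ 1 := by
    rw [abs_le]
    constructor <;> linarith
  induction m with
  | zero => simp
  | succ m ih =>
    have h3 : (1 - b) ^ (m + 1) - (1 - ((m + 1 : ℕ) : ℝ) * b) =
        (1 - b) * ((1 - b) ^ m - (1 - m * b)) + m * b ^ 2 := by
      push_cast
      ring
    rw [h3]
    calc _ ≤ |(1 - b) * ((1 - b) ^ m - (1 - m * b))| + |(m : ℝ) * b ^ 2| := abs_add_le _ _
      _ ≤ 1 * ((m : ℝ) ^ 2 * b ^ 2) + m * b ^ 2 := by
        rw [abs_mul, abs_of_nonneg (show (0 : ℝ) ≤ (m : ℝ) * b ^ 2 by positivity)]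
        apply add_le_add _ le_rfl
        exact mul_le_mul h1 ih (abs_nonneg _) zero_le_one
      _ ≤ _ := by
        push_cast
        have : (0 : ℝ) ≤ (m : ℝ) := Nat.cast_nonneg m
        nlinarith [sq_nonneg b, mul_nonneg this (sq_nonneg b)]

theorem t_CB : S_CB := by
  refine ⟨20, by norm_num, ?_⟩
  intro L p m θ hp hm hL hm1
  have hp0 : 0 < p := hp.pos
  have hpr : (0 : ℝ) < p := by exact_mod_cast hp0
  have hm1' : (1 : ℝ) ≤ m := by exact_mod_cast hm1
  have hp3 : (3 : ℝ) ≤ p := by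
    have : 3 ≤ p := by omega
    exact_mod_cast this
  obtain ⟨a, ha⟩ : ∃ a : ℝ, a = 2 / p * (1 - Real.cos θ) := ⟨_, rfl⟩
  obtain ⟨b, hb⟩ : ∃ b : ℝ, b = a * (1 - 1 / p) := ⟨_, rfl⟩
  have hc1 := Real.cos_le_one θ
  have hc2 := Real.neg_one_le_cos θ
  have ha0 : 0 ≤ a := by
    rw [ha]
    exact mul_nonneg (by positivity) (by linarith)
  have ha1 : a ≤ 4 / p := by
    rw [ha]
    calc 2 / (p : ℝ) * (1 - Real.cos θ) ≤ 2 / p * 2 :=
          mul_le_mul_of_nonneg_left (by linarith) (by positivity)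
      _ = 4 / p := by ring
  have hip : (1 : ℝ) / p ≤ 1 := by
    rw [div_le_one hpr]
    linarith
  have hip0 : (0 : ℝ) ≤ 1 / p := by positivity
  have hb0 : 0 ≤ b := by
    rw [hb]
    exact mul_nonneg ha0 (by linarith)
  have hba : b ≤ a := by
    rw [hb]
    nlinarith
  have hb4 : b ≤ 4 / p := hba.trans ha1
  have hb2 : b ≤ 2 := by
    refine hb4.trans ?_
    rw [div_le_iff₀ hpr]
    linarith
  rw [charJ_eq L p m θ hp0 hm hL, hL, pow_mul, psi_sq p θ hp0, ← ha, ← hb, ← Complex.ofReal_sub,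
    Complex.norm_real, Real.norm_eq_abs]
  have h1 := pow_bound b hb0 hb2 m
  have h2 : (1 - (m : ℝ) * a) - (1 - b) ^ m =
      -((1 - b) ^ m - (1 - m * b)) - m * (a - b) := by ring
  rw [h2]
  have h3 : |(m : ℝ) * (a - b)| ≤ 4 * (m / p) ^ 2 := by
    rw [abs_of_nonneg (mul_nonneg (by linarith) (by linarith))]
    have h4 : a - b = a * (1 / p) := by rw [hb]; ring
    rw [h4]
    calc (m : ℝ) * (a * (1 / p)) ≤ m * (4 / p * (1 / p)) :=
          mul_le_mul_of_nonneg_left (mul_le_mul_of_nonneg_right ha1 hip0) (by linarith)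
      _ = 4 * m * (1 / p) ^ 2 := by ring
      _ ≤ 4 * (m * m) * (1 / p) ^ 2 := by
          apply mul_le_mul_of_nonneg_right _ (sq_nonneg _)
          nlinarith
      _ = 4 * (m / p) ^ 2 := by ring
  have h5 : (m : ℝ) ^ 2 * b ^ 2 ≤ 16 * (m / p) ^ 2 := by
    calc (m : ℝ) ^ 2 * b ^ 2 ≤ m ^ 2 * (4 / p) ^ 2 :=
          mul_le_mul_of_nonneg_left (pow_le_pow_left₀ hb0 hb4 2) (sq_nonneg _)
      _ = 16 * (m / p) ^ 2 := by ring
  calc _ ≤ |-((1 - b) ^ m - (1 - m * b))| + |(m : ℝ) * (a - b)| := abs_sub _ _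
    _ ≤ 16 * (m / p) ^ 2 + 4 * (m / p) ^ 2 := by
        rw [abs_neg]
        exact add_le_add (h1.trans h5) h3
    _ = 20 * (m / p) ^ 2 := by ring

end Pool.Agent.H85.OM
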